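import Pool.Agent.W586.SK.Stm
import Pool.Agent.H888R2.KT.N9
import Pool.Agent.H888R2.KT.N10

set_option autoImplicit false

namespace Pool.Agent.W493.SK

open MeasureTheory Set
open scoped ENNReal InnerProductSpace
open Pool.Agent.H212R2.KLS (mu Bdd)
open Pool.Agent.H888R2.KT (LC zz gs gc pst hs)
open Pool.Agent.H888R2.KT
open Pool.Agent.H888R2.KT.N9x
open Pool.Agent.W586.SK

theorem hs_eq {n : ℕ} (v : E n → ℝ) (x : E n) : hs v x =
    ∑ i, ‖fderiv ℝ (fun z => fderiv ℝ v z (EuclideanSpace.single i 1)) x‖ ^ 2 := by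
  unfold hs
  refine Finset.sum_congr rfl fun i _ => ?_
  congr!

theorem rho_rf {n : ℕ} {ρ : E n → ℝ} (hS : Sy ρ) (i : Fin n) (x : E n) : ρ (rf i x) = ρ x := by
  apply hS.inv 1
  intro j
  rw [rf_apply]
  split_ifs <;> simp

theorem rf_single {n : ℕ} (i : Fin n) :
    rf i (EuclideanSpace.single i (1 : ℝ)) = -(EuclideanSpace.single i (1 : ℝ)) := by
  ext j
  rw [rf_apply]
  by_cases h : j = i
  · subst h; simp
  · simp [h]

theorem rf_neg_single {n : ℕ} (i : Fin n) :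
    rf i (-(EuclideanSpace.single i (1 : ℝ))) = EuclideanSpace.single i (1 : ℝ) := by
  rw [map_neg, rf_single, neg_neg]

theorem St0 {n : ℕ} {ρ : E n → ℝ} (hS : Sy ρ) (L : ℝ) (e : Fin 0 → E n) : St e L ρ := by
  intro x y
  have h1 := hS.logc x y (1 / 2) (by norm_num) (by norm_num)
  have h2 : (1 - 1 / 2 : ℝ) • x + (1 / 2 : ℝ) • y = (1 / 2 : ℝ) • (x + y) := by
    rw [smul_add]; norm_num
  rw [h2] at h1
  have h3 : (1 - 1 / 2 : ℝ) = 1 / 2 := by norm_num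
  rw [h3] at h1
  have h4 : 0 ≤ ρ x ^ (1 / 2 : ℝ) * ρ y ^ (1 / 2 : ℝ) :=
    mul_nonneg (Real.rpow_nonneg (hS.nonneg x) _) (Real.rpow_nonneg (hS.nonneg y) _)
  have h5 := pow_le_pow_left₀ h4 h1 2
  rw [mul_pow] at h5
  have h6 : ∀ a : ℝ, 0 ≤ a → (a ^ (1 / 2 : ℝ)) ^ 2 = a := by
    intro a ha
    rw [← Real.sqrt_eq_rpow, Real.sq_sqrt ha]
  rw [h6 _ (hS.nonneg x), h6 _ (hS.nonneg y)] at h5
  simpa using h5

theorem odd_dir {n : ℕ} (v : E n → ℝ) (hv : ContDiff ℝ 2 v) (i : Fin n)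
    (he : ∀ x, v (rf i x) = v x) (z : E n) :
    fderiv ℝ v (rf i z) (EuclideanSpace.single i 1) = -(fderiv ℝ v z (EuclideanSpace.single i 1)) := by
  have hd : Differentiable ℝ v := hv.differentiable (by norm_num)
  have h1 : HasFDerivAt (fun x => v (rf i x))
      ((fderiv ℝ v (rf i z)).comp ((rf i).toContinuousLinearEquiv : E n →L[ℝ] E n)) z :=
    (hd (rf i z)).hasFDerivAt.comp z ((rf i).toContinuousLinearEquiv.hasFDerivAt)
  have h2 : (fun x => v (rf i x)) = v := funext he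
  rw [h2] at h1
  have h3 := h1.fderiv
  rw [h3]
  simp only [ContinuousLinearMap.comp_apply]
  have h4 : ((rf i).toContinuousLinearEquiv : E n →L[ℝ] E n) (EuclideanSpace.single i (1 : ℝ)) =
      -(EuclideanSpace.single i (1 : ℝ)) := rf_single i
  rw [h4, map_neg, neg_neg]

theorem even : S_EVEN := by
  intro n ρ hSy hρ L hL hodd u hu0 heu
  classical
  obtain ⟨R, hR0, hR⟩ : ∃ R : ℝ, 0 < R ∧ ∀ x, R < ‖x‖ → ρ x = 0 := by
    obtain ⟨R₀, hR₀⟩ := hρ.bdd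
    exact ⟨max R₀ 1, lt_of_lt_of_le one_pos (le_max_right _ _), fun x hx =>
      hR₀ x (lt_of_le_of_lt (le_max_left _ _) hx)⟩
  have hS : ∀ u : E n → ℝ, (∀ i x, u (rf i x) = u x) →
      ∀ i x, gs L (pst L ρ u) (rf i x) = gs L (pst L ρ u) x := by
    intro u hu i x
    exact equiv hρ L (rf i) (rho_rf hSy i) u (hu i) x
  -- integrated inequality
  have hB : ∀ v : E n → ℝ, (∀ i x, v (rf i x) = v x) → ContDiff ℝ 2 v →
      ∫ x, ‖fderiv ℝ v x‖ ^ 2 ∂(mu ρ) ≤ L * ∫ x, hs v x ∂(mu ρ) := by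
    intro v hev hv
    have hdi : ∀ i : Fin n, ContDiff ℝ 1 (fun z => fderiv ℝ v z (EuclideanSpace.single i (1 : ℝ))) :=
      fun i => (hv.fderiv_right (m := 1) (by norm_num)).clm_apply contDiff_const
    have h1 : ∫ x, ‖fderiv ℝ v x‖ ^ 2 ∂(mu ρ) =
        ∑ i : Fin n, ∫ x, (fderiv ℝ v x (EuclideanSpace.single i 1)) ^ 2 ∂(mu ρ) := by
      rw [← integral_finsetSum]
      · refine integral_congr_ae (Filter.Eventually.of_forall fun x => ?_)
        exact Pool.Agent.H888R2.KT.N8x.norm_sq_clm _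
      · intro i _
        exact int_cont hρ ((hdi i).continuous.pow 2)
    have h2 : ∫ x, hs v x ∂(mu ρ) = ∑ i : Fin n,
        ∫ x, ‖fderiv ℝ (fun z => fderiv ℝ v z (EuclideanSpace.single i 1)) x‖ ^ 2 ∂(mu ρ) := by
      rw [← integral_finsetSum]
      · refine integral_congr_ae (Filter.Eventually.of_forall fun x => ?_)
        exact hs_eq v x
      · intro i _
        exact int_cont hρ (grad_cont (hdi i))
    rw [h1, h2, Finset.mul_sum]
    refine Finset.sum_le_sum fun i _ => ?_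
    exact hodd i _ (hdi i) (fun z => odd_dir v hv i (hev i) z)
  -- contraction of the Dirichlet form
  have hD : ∀ u : E n → ℝ, (∀ i x, u (rf i x) = u x) → ContDiff ℝ 1 u →
      ContDiff ℝ 2 (gs L (pst L ρ u)) ∧
      2 * ∫ x, ‖fderiv ℝ (gs L (pst L ρ u)) x‖ ^ 2 ∂(mu ρ) ≤
        ∫ x, ‖fderiv ℝ u x‖ ^ 2 ∂(mu ρ) := by
    intro u hu hu1
    obtain ⟨h1, h2⟩ := key hρ (fun j : Fin 0 => (j.elim0 : E n)) ⟨fun j => j.elim0, fun j => j.elim0⟩
      L hL (St0 hSy L _) L hL u hu1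
    refine ⟨h1, le_trans ?_ h2⟩
    have h1' : ContDiff ℝ 1 (gs L (pst L ρ u)) := h1.of_le (by norm_num)
    have h3 := hB _ (hS u hu) h1
    have e1 : ∫ x, (‖fderiv ℝ (gs L (pst L ρ u)) x‖ ^ 2 + L * hs (gs L (pst L ρ u)) x +
        L / L * ∑ j : Fin 0, (fderiv ℝ (gs L (pst L ρ u)) x ((fun j : Fin 0 => (j.elim0 : E n)) j)) ^ 2)
          ∂(mu ρ) =
        ∫ x, ‖fderiv ℝ (gs L (pst L ρ u)) x‖ ^ 2 ∂(mu ρ) +
          L * ∫ x, hs (gs L (pst L ρ u)) x ∂(mu ρ) := by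
      have i2 : Integrable (fun x => L * hs (gs L (pst L ρ u)) x) (mu ρ) :=
        int_cont hρ (continuous_const.mul (hs_cont h1))
      rw [← integral_const_mul, ← integral_add (int_cont hρ (grad_cont h1')) i2]
      refine integral_congr_ae (Filter.Eventually.of_forall fun x => ?_)
      simp
    rw [e1]
    linarith
  -- induction
  have hind : ∀ m : ℕ, ∀ u : E n → ℝ, (∀ i x, u (rf i x) = u x) → ContDiff ℝ 1 u →
      W ρ u ≤ (4 * L + (2 * R ^ 2 - 4 * L) * (1 / 2) ^ m) * ∫ x, ‖fderiv ℝ u x‖ ^ 2 ∂(mu ρ) := by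
    intro m
    induction m with
    | zero =>
      intro u _ hu1
      obtain ⟨c, hc⟩ := ball_poincare hρ R hR0 hR u hu1
      have := W_le hρ hu1.continuous c
      calc W ρ u ≤ _ := this
        _ ≤ _ := hc
        _ = _ := by ring
    | succ m ih =>
      intro u hu hu1
      obtain ⟨h1, h2⟩ := hD u hu hu1
      have h1' : ContDiff ℝ 1 (gs L (pst L ρ u)) := h1.of_le (by norm_num)
      have h3 := ih _ (hS u hu) h1'
      obtain ⟨h4, h5⟩ := l2step hρ L hL u hu1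
      have h6 : W ρ u ≤ W ρ (gs L (pst L ρ u)) +
          2 * L * ∫ x, ‖fderiv ℝ u x‖ ^ 2 ∂(mu ρ) := by
        unfold W
        rw [h4]
        linarith
      have hcoef : 0 ≤ 4 * L + (2 * R ^ 2 - 4 * L) * (1 / 2 : ℝ) ^ m := by
        have hp0 : (0 : ℝ) < (1 / 2) ^ m := by positivity
        have hp1 : (1 / 2 : ℝ) ^ m ≤ 1 := pow_le_one₀ (by norm_num) (by norm_num)
        have : 4 * L + (2 * R ^ 2 - 4 * L) * (1 / 2 : ℝ) ^ m =
          4 * L * (1 - (1 / 2 : ℝ) ^ m) + 2 * R ^ 2 * (1 / 2 : ℝ) ^ m := by ring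
        rw [this]
        have h7 : 0 ≤ 1 - (1 / 2 : ℝ) ^ m := by linarith
        positivity
      have h8 : ∫ x, ‖fderiv ℝ (gs L (pst L ρ u)) x‖ ^ 2 ∂(mu ρ) ≤
          1 / 2 * ∫ x, ‖fderiv ℝ u x‖ ^ 2 ∂(mu ρ) := by linarith
      have h9 := mul_le_mul_of_nonneg_left h8 hcoef
      calc W ρ u ≤ _ := h6
        _ ≤ (4 * L + (2 * R ^ 2 - 4 * L) * (1 / 2) ^ m) *
            (1 / 2 * ∫ x, ‖fderiv ℝ u x‖ ^ 2 ∂(mu ρ)) +
            2 * L * ∫ x, ‖fderiv ℝ u x‖ ^ 2 ∂(mu ρ) := by linarith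
        _ = _ := by rw [pow_succ]; ring
  refine ⟨(∫ x, u x ∂(mu ρ)) / (mu ρ).real univ, ?_⟩
  rw [W_eq hρ hu0.continuous]
  have hlim : Filter.Tendsto (fun m : ℕ => (4 * L + (2 * R ^ 2 - 4 * L) * (1 / 2 : ℝ) ^ m) *
      ∫ x, ‖fderiv ℝ u x‖ ^ 2 ∂(mu ρ)) Filter.atTop
      (nhds ((4 * L + (2 * R ^ 2 - 4 * L) * 0) * ∫ x, ‖fderiv ℝ u x‖ ^ 2 ∂(mu ρ))) := by
    have h1 : Filter.Tendsto (fun m : ℕ => (1 / 2 : ℝ) ^ m) Filter.atTop (nhds 0) :=
      tendsto_pow_atTop_nhds_zero_of_lt_one (by norm_num) (by norm_num)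
    exact ((h1.const_mul _).const_add _).mul_const _
  rw [mul_zero, add_zero] at hlim
  exact ge_of_tendsto' hlim fun m => hind m u heu hu0

end Pool.Agent.W493.SK
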